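import Pool.Agent.Helper99.AA.Basic

set_option autoImplicit false

/-!
Project AA, row LL: lower bound for the Dirichlet series of the rough numbers.
-/

open Finset MeasureTheory
open scoped BigOperators Nat

namespace Pool.Agent.Helper12.AA

open Pool.Agent.Helper40.MR
open Pool.Agent.Helper99.AA

/-- The trivial character modulo `primorial y` is the indicator of the `y`-rough numbers. -/
theorem triv_eq_ro (y n : ℕ) :
    (1 : DirichletCharacter ℂ (primorial y)) (n : ZMod (primorial y)) = ro y n := by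
  by_cases h : Ro y n
  · rw [ro_pos h]
    refine MulChar.one_apply ?_
    rw [ZMod.isUnit_iff_coprime]
    rw [Nat.coprime_iff_gcd_eq_one]
    by_contra hg
    obtain ⟨p, hp, hpd⟩ := Nat.exists_prime_and_dvd hg
    have h1 : p ∣ n := hpd.trans (Nat.gcd_dvd_left _ _)
    have h2 : p ∣ primorial y := hpd.trans (Nat.gcd_dvd_right _ _)
    have h3 := h p hp h1
    unfold primorial at h2
    obtain ⟨q, hq, hpq⟩ := (Prime.dvd_finsetProd_iff hp.prime _).1 h2
    obtain ⟨hq1, hq2⟩ := Finset.mem_filter.1 hq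
    have h4 : p = q := (Nat.prime_dvd_prime_iff_eq hp hq2).1 hpq
    have h5 := Finset.mem_range.1 hq1
    omega
  · rw [ro_neg h]
    refine MulChar.map_nonunit _ ?_
    rw [ZMod.isUnit_iff_coprime]
    intro hc
    apply h
    intro p hp hpn
    by_contra hlt
    have h1 : p ∣ primorial y := by
      unfold primorial
      exact Finset.dvd_prod_of_mem _ (Finset.mem_filter.2 ⟨Finset.mem_range.2 (by omega), hp⟩)
    have h2 := Nat.dvd_gcd hpn h1
    rw [Nat.coprime_iff_gcd_eq_one.1 hc] at h2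
    exact hp.one_lt.ne' (Nat.dvd_one.1 h2)

theorem three_four_one (y : ℕ) {η : ℝ} (hη : 0 < η) (τ : ℝ) :
    1 ≤ ‖Gv (ro y) η 0‖ ^ 3 * ‖Gv (ro y) η τ‖ ^ 4 * ‖Gv (ro y) η (2 * τ)‖ := by
  have h := DirichletCharacter.norm_LSeries_product_ge_one
    (1 : DirichletCharacter ℂ (primorial y)) hη τ
  rw [one_pow] at h
  have hf : (fun n : ℕ => (1 : DirichletCharacter ℂ (primorial y)) (n : ZMod (primorial y))) =
      ro y := funext fun n => triv_eq_ro y n
  rw [hf, norm_mul, norm_mul, norm_pow, norm_pow] at h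
  have e0 : Gv (ro y) η 0 = LSeries (ro y) (1 + (η : ℂ)) := by
    unfold Gv
    congr 1
    push_cast
    ring
  have e1 : Gv (ro y) η τ = LSeries (ro y) (1 + (η : ℂ) + Complex.I * τ) := by
    unfold Gv
    congr 1
    push_cast
    ring
  have e2 : Gv (ro y) η (2 * τ) = LSeries (ro y) (1 + (η : ℂ) + 2 * Complex.I * τ) := by
    unfold Gv
    congr 1
    push_cast
    ring
  rw [e0, e1, e2]
  exact h

theorem absc_ro (y : ℕ) : LSeries.abscissaOfAbsConv (ro y) ≤ 1 :=
  LSeries.abscissaOfAbsConv_le_of_le_const ⟨1, fun n _ => norm_ro_le y n⟩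

theorem Gv_hasDerivAt (y : ℕ) {η : ℝ} (hη : 0 < η) (τ : ℝ) :
    HasDerivAt (fun e : ℝ => Gv (ro y) e τ)
      (-Gv (fun n => ro y n * (Real.log n : ℂ)) η τ) η := by
  have h1 : LSeries.abscissaOfAbsConv (ro y) < ((((1 + η : ℝ) : ℂ) + (τ : ℂ) * Complex.I).re : ℝ) := by
    refine lt_of_le_of_lt (absc_ro y) ?_
    have : ((((1 + η : ℝ) : ℂ) + (τ : ℂ) * Complex.I).re : ℝ) = 1 + η := by simp
    rw [this]
    exact_mod_cast (by linarith : (1 : ℝ) < 1 + η)
  have h2 := LSeries_hasDerivAt h1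
  have h3 : HasDerivAt (fun e : ℝ => ((1 + e : ℝ) : ℂ) + (τ : ℂ) * Complex.I) 1 η := by
    have h4 : HasDerivAt (fun e : ℝ => (1 + e : ℝ)) 1 η := (hasDerivAt_id η).const_add 1
    have h5 := h4.ofReal_comp
    simpa using h5.add_const ((τ : ℂ) * Complex.I)
  have h6 := h2.comp η h3
  have h7 : LSeries (LSeries.logMul (ro y)) (((1 + η : ℝ) : ℂ) + (τ : ℂ) * Complex.I) =
      Gv (fun n => ro y n * (Real.log n : ℂ)) η τ := by
    unfold Gv
    congr 1
    funext n
    unfold LSeries.logMul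
    rw [← Complex.natCast_log, mul_comm]
  rw [h7, mul_one] at h6
  exact h6

theorem st_LL (hLU : ST_LU) (hLR : ST_LR) : ST_LL := by
  obtain ⟨C1, hC1, hU⟩ := hLU
  obtain ⟨C2, hC2, hR⟩ := hLR
  set C : ℝ := max 1 (max C1 C2) with hC
  have hC0 : 1 ≤ C := le_max_left _ _
  have hCC1 : C1 ≤ C := (le_max_left _ _).trans (le_max_right _ _)
  have hCC2 : C2 ≤ C := (le_max_right _ _).trans (le_max_right _ _)
  set l : ℝ := 1 / (128 * C ^ 8) with hl
  have hC8 : 1 ≤ C ^ 8 := one_le_pow₀ hC0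
  have hl0 : 0 < l := by positivity
  have hl1 : l ≤ 1 / 128 := by
    rw [hl]
    exact one_div_le_one_div_of_le (by norm_num) (by linarith)
  have hkey : 128 * C ^ 8 * l = 1 := by
    rw [hl]
    field_simp
  refine ⟨C * l, by positivity, l, hl0, ?_⟩
  intro A hA
  obtain ⟨y₀, hy₀, hU'⟩ := hU A hA
  refine ⟨y₀, hy₀, ?_⟩
  intro y η τ hyy hη hηl hτ hτA hτη
  have hy2 : 2 ≤ y := hy₀.trans hyy
  have hyr : (2 : ℝ) ≤ y := by exact_mod_cast hy2
  have hlog : 1 / 2 ≤ Real.log y := by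
    have h1 : Real.log 2 ≤ Real.log y := Real.log_le_log (by norm_num) hyr
    have h2 := Real.log_two_gt_d9
    linarith
  have hlog0 : 0 < Real.log y := by linarith
  set e : ℝ := l / Real.log y with he
  have he0 : 0 < e := div_pos hl0 hlog0
  have hel : e * Real.log y = l := by
    rw [he]
    field_simp
  have hηe : η ≤ e := by
    rw [he, le_div_iff₀ hlog0]
    exact hηl
  have he1 : e ≤ 1 := by
    rw [he, div_le_one hlog0]
    linarith
  have htau0 : 0 ≤ |τ| := abs_nonneg _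
  have hsq : ∀ x, η ≤ x → 1 ≤ |τ| * (x * Real.log y) ^ 2 := by
    intro x hx
    refine hτη.trans ?_
    refine mul_le_mul_of_nonneg_left ?_ htau0
    refine pow_le_pow_left₀ (by positivity) ?_ 2
    exact mul_le_mul_of_nonneg_right hx hlog0.le
  -- upper bounds
  have hA1 : 2 + |τ| ≤ (y : ℝ) ^ A := by linarith
  have h2tau : |2 * τ| = 2 * |τ| := by
    rw [abs_mul]
    norm_num
  have hG2 : ‖Gv (ro y) e (2 * τ)‖ ≤ C := by
    refine ((hU' y e (2 * τ) hyy he0 he1 ?_ ?_ ?_).1).trans hCC1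
    · rw [h2tau]
      linarith
    · rw [h2tau]
      exact hτA
    · rw [h2tau]
      have := hsq e hηe
      nlinarith [sq_nonneg (e * Real.log y)]
  have hG0 : ‖Gv (ro y) e 0‖ ≤ 2 * C / l := by
    refine (hR y e hy2 he0 he1).trans ?_
    rw [hel]
    have h1 : 1 ≤ 1 / l := by
      rw [le_div_iff₀ hl0]
      linarith
    calc C2 * (1 + 1 / l) ≤ C * (1 / l + 1 / l) := by
          refine mul_le_mul hCC2 (by linarith) (by positivity) (by linarith)
      _ = 2 * C / l := by ring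
  have h341 := three_four_one y he0 τ
  set g : ℝ := ‖Gv (ro y) e τ‖ with hg
  have hg0 : 0 ≤ g := norm_nonneg _
  have hgl : 1 ≤ (2 * C / l) ^ 3 * g ^ 4 * C := by
    refine h341.trans ?_
    refine mul_le_mul ?_ hG2 (norm_nonneg _) (by positivity)
    refine mul_le_mul_of_nonneg_right ?_ (by positivity)
    exact pow_le_pow_left₀ (norm_nonneg _) hG0 3
  have hgl2 : 2 * C * l ≤ g := by
    by_contra hcon
    push Not at hcon
    have h1 : g ^ 4 < (2 * C * l) ^ 4 := pow_lt_pow_left₀ hcon hg0 (by norm_num)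
    have h2 : (2 * C / l) ^ 3 * g ^ 4 * C < (2 * C / l) ^ 3 * (2 * C * l) ^ 4 * C := by
      refine mul_lt_mul_of_pos_right ?_ (by linarith)
      exact mul_lt_mul_of_pos_left h1 (by positivity)
    have h3 : (2 * C / l) ^ 3 * (2 * C * l) ^ 4 * C = 128 * C ^ 8 * l := by
      field_simp
      ring
    rw [h3, hkey] at h2
    linarith
  -- the derivative
  have hdiff : ‖Gv (ro y) e τ - Gv (ro y) η τ‖ ≤ C * Real.log y * (e - η) := by
    have hder : ∀ x ∈ Set.Icc η e, HasDerivWithinAt (fun e : ℝ => Gv (ro y) e τ)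
        (-Gv (fun n => ro y n * (Real.log n : ℂ)) x τ) (Set.Icc η e) x := by
      intro x hx
      exact (Gv_hasDerivAt y (hη.trans_le hx.1) τ).hasDerivWithinAt
    have hbd : ∀ x ∈ Set.Ico η e, ‖-Gv (fun n => ro y n * (Real.log n : ℂ)) x τ‖ ≤
        C * Real.log y := by
      intro x hx
      rw [norm_neg]
      refine ((hU' y x τ hyy (hη.trans_le hx.1) (hx.2.le.trans he1) hτ hA1 (hsq x hx.1)).2).trans ?_
      exact mul_le_mul_of_nonneg_right hCC1 hlog0.le
    exact norm_image_sub_le_of_norm_deriv_le_segment' hder hbd e ⟨hηe, le_rfl⟩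
  have hdiff2 : ‖Gv (ro y) e τ - Gv (ro y) η τ‖ ≤ C * l := by
    refine hdiff.trans ?_
    calc C * Real.log y * (e - η) ≤ C * Real.log y * e := by
          refine mul_le_mul_of_nonneg_left (by linarith) (by positivity)
      _ = C * l := by rw [mul_assoc, mul_comm (Real.log _) e, hel]
  have hfin : g ≤ ‖Gv (ro y) e τ - Gv (ro y) η τ‖ + ‖Gv (ro y) η τ‖ := by
    rw [hg]
    calc ‖Gv (ro y) e τ‖ = ‖(Gv (ro y) e τ - Gv (ro y) η τ) + Gv (ro y) η τ‖ := by
          rw [sub_add_cancel]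
      _ ≤ _ := norm_add_le _ _
  linarith

end Pool.Agent.Helper12.AA
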