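import Pool.Agent.Helper99.AA.Basic

set_option autoImplicit false

/-!
Project AA, row LU: upper bounds for the Dirichlet series of the rough numbers.
-/

open Finset MeasureTheory
open scoped BigOperators Nat

namespace Pool.Agent.Helper12.AA

open Pool.Agent.Helper40.MR
open Pool.Agent.Helper99.AA

theorem intIoi {a : ℝ} (ha : 0 < a) :
    IntegrableOn (fun u : ℝ => u ^ (-1 - a)) (Set.Ioi 1) ∧
      ∫ u in Set.Ioi (1 : ℝ), u ^ (-1 - a) = 1 / a := by
  refine ⟨integrableOn_Ioi_rpow_of_lt (by linarith) one_pos, ?_⟩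
  rw [integral_Ioi_rpow_of_lt (by linarith) one_pos, Real.one_rpow]
  rw [show (-1 - a + 1 : ℝ) = -a by ring, neg_div_neg_eq]

/-- The integral representation of the Dirichlet series of `log^k n * rt y t n`, in norm. -/
theorem norm_Gv_le {f : ℕ → ℂ} {η r : ℝ} (hη : 0 < η) (hη1 : η ≤ 1) (hr0 : 0 ≤ r) (hr : r < 1 + η)
    (hS : LSeriesSummable f ((1 + η : ℝ) : ℂ))
    (hO : ∀ n : ℕ, 1 ≤ n → ‖∑ k ∈ Icc 1 n, f k‖ ≤ (η⁻¹ * 4 + 4) * (n : ℝ) ^ r)
    {g : ℝ → ℝ} (hg : IntegrableOn g (Set.Ioi 1))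
    (hfg : ∀ u : ℝ, 1 < u → ‖Sg f u‖ * u ^ (-(2 + η)) ≤ g u) :
    ‖Gv f η 0‖ ≤ 2 * ∫ u in Set.Ioi (1 : ℝ), g u := by
  have hO' : (fun n : ℕ => ∑ k ∈ Icc 1 n, f k) =O[Filter.atTop] fun n : ℕ => (n : ℝ) ^ r := by
    refine Asymptotics.IsBigO.of_bound (η⁻¹ * 4 + 4) ?_
    filter_upwards [Filter.eventually_ge_atTop 1] with n hn
    have h1 := hO n hn
    rw [Real.norm_of_nonneg (by positivity : (0 : ℝ) ≤ (n : ℝ) ^ r)]
    linarith
  have hre : r < (((1 + η : ℝ) : ℂ)).re := by
    rw [Complex.ofReal_re]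
    exact hr
  have h1 := LSeries_eq_mul_integral f hr0 hre hS hO'
  have h2 : Gv f η 0 = LSeries f ((1 + η : ℝ) : ℂ) := by
    unfold Gv
    congr 1
    push_cast
    ring
  rw [h2, h1, norm_mul, Complex.norm_real, Real.norm_of_nonneg (by linarith)]
  have h3 : ‖∫ u in Set.Ioi (1 : ℝ), (∑ k ∈ Icc 1 ⌊u⌋₊, f k) *
      (u : ℂ) ^ (-(((1 + η : ℝ) : ℂ) + 1))‖ ≤ ∫ u in Set.Ioi (1 : ℝ), g u := by
    refine norm_integral_le_of_norm_le hg ?_
    refine (ae_restrict_iff' measurableSet_Ioi).2 (Filter.Eventually.of_forall fun u hu => ?_)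
    have hu1 : (1 : ℝ) < u := hu
    have h4 : ‖(u : ℂ) ^ (-(((1 + η : ℝ) : ℂ) + 1))‖ = u ^ (-(2 + η)) := by
      rw [Complex.norm_cpow_eq_rpow_re_of_pos (by linarith)]
      congr 1
      simp
      ring
    rw [norm_mul, h4]
    exact hfg u hu1
  have h0 : 0 ≤ ∫ u in Set.Ioi (1 : ℝ), g u := (norm_nonneg _).trans h3
  exact mul_le_mul (by linarith) h3 (norm_nonneg _) (by norm_num)

theorem st_LU (hPS : ST_PS) : ST_LU := by
  obtain ⟨C, hC, hP⟩ := hPS
  refine ⟨2 + 16 * C, by positivity, ?_⟩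
  intro A hA
  obtain ⟨y₀, hy₀, hP'⟩ := hP A hA
  refine ⟨y₀, hy₀, ?_⟩
  intro y η τ hyy hη hη1 hτ hτA hτη
  have hy2 : 2 ≤ y := hy₀.trans hyy
  have hyr : (2 : ℝ) ≤ y := by exact_mod_cast hy2
  set L : ℝ := Real.log y with hL
  have hL0 : 0 < L := Real.log_pos (by linarith)
  have ht0 : 0 < |τ| := by linarith
  have hpow : ∀ u : ℝ, 0 < u → Real.exp (-(Real.log u / L)) = u ^ (-(1 / L)) := by
    intro u hu
    rw [Real.rpow_def_of_pos hu]
    congr 1
    ring
  have hηL : 1 ≤ |τ| * (η * L) := by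
    have h1 : 0 < η * L := by positivity
    by_contra hcon
    push Not at hcon
    have h2 : |τ| * (η * L) ^ 2 = (|τ| * (η * L)) * (η * L) := by ring
    rw [h2] at hτη
    have h3 : η * L < 1 := by nlinarith
    nlinarith
  -- bounds for `Ph`
  have hPh : ∀ (k : ℕ) (u : ℝ), k ≤ 2 → (y : ℝ) ≤ u → ‖Ph k y u τ‖ ≤
      C * (Real.log u ^ k * (u / L) * (1 / |τ| + u ^ (-(1 / L)))) := by
    intro k u hk hu
    have := hP' k y τ u hk hyy hτ hτA hu
    rw [hpow u (by linarith)] at this
    exact this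
  have hrt : ∀ n, ‖rt y τ n‖ ≤ 1 := fun n => by
    rw [norm_rt]
    exact norm_ro_le y n
  have hsum : LSeriesSummable (rt y τ) ((1 + η : ℝ) : ℂ) := by
    refine LSeriesSummable_of_bounded_of_one_lt_re (m := 1) (fun n _ => hrt n) ?_
    rw [Complex.ofReal_re]
    linarith
  constructor
  · -- `k = 0`
    have e1 : Gv (ro y) η τ = Gv (rt y τ) η 0 := by
      rw [Gv_rt, add_zero]
    rw [e1]
    have i1 : IntegrableOn (fun u : ℝ => u ^ (-(2 : ℝ))) (Set.Ioi 1) :=
      integrableOn_Ioi_rpow_of_lt (by norm_num) one_pos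
    have j1 : ∫ u in Set.Ioi (1 : ℝ), u ^ (-(2 : ℝ)) = 1 := by
      rw [integral_Ioi_rpow_of_lt (by norm_num) one_pos, Real.one_rpow]
      norm_num
    obtain ⟨i2, j2⟩ := intIoi hη
    obtain ⟨i3, j3⟩ := intIoi (a := 1 / L) (by positivity)
    have i23 : IntegrableOn (fun u : ℝ => C / L * (1 / |τ|) * u ^ (-1 - η) +
        C / L * u ^ (-1 - 1 / L)) (Set.Ioi 1) := (i2.const_mul _).add (i3.const_mul _)
    set g : ℝ → ℝ := fun u => u ^ (-(2 : ℝ)) +
      (C / L * (1 / |τ|) * u ^ (-1 - η) + C / L * u ^ (-1 - 1 / L)) with hg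
    have hgi : IntegrableOn g (Set.Ioi 1) := i1.add i23
    have hgI : ∫ u in Set.Ioi (1 : ℝ), g u = 1 + (C / L * (1 / |τ|) * (1 / η) + C / L * L) := by
      rw [hg]
      rw [integral_add i1 i23,
        integral_add (i2.const_mul _) (i3.const_mul _), integral_const_mul, integral_const_mul,
        j1, j2, j3]
      norm_num
    have hm := norm_Gv_le (f := rt y τ) (r := 1) hη hη1 zero_le_one (by linarith) hsum ?_ hgi ?_
    · refine hm.trans ?_
      rw [hgI]
      have h1 : C / L * (1 / |τ|) * (1 / η) ≤ C := by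
        have h2 : C / L * (1 / |τ|) * (1 / η) = C / (|τ| * (η * L)) := by
          field_simp
        rw [h2]
        exact div_le_self hC.le hηL
      have h3 : C / L * L = C := by field_simp
      rw [h3]
      linarith
    · intro n hn
      have h1 : ‖∑ k ∈ Icc 1 n, rt y τ k‖ ≤ n := by
        refine (norm_sum_le _ _).trans ?_
        refine (Finset.sum_le_sum fun k _ => hrt k).trans ?_
        simp
      rw [Real.rpow_one]
      have h2 : (0 : ℝ) ≤ n := Nat.cast_nonneg n
      have h3 : 0 ≤ η⁻¹ * 4 * (n : ℝ) := by positivity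
      nlinarith
    · intro u hu
      have hu0 : 0 < u := by linarith
      have e2 : Sg (rt y τ) u = Ph 0 y u τ := by
        unfold Ph
        congr 1
        funext n
        rw [pow_zero, one_mul]
      rw [e2]
      have p1 : (0 : ℝ) < u ^ (-1 - η) := Real.rpow_pos_of_pos hu0 _
      have p2 : (0 : ℝ) < u ^ (-1 - 1 / L) := Real.rpow_pos_of_pos hu0 _
      have p3 : (0 : ℝ) < u ^ (-(2 : ℝ)) := Real.rpow_pos_of_pos hu0 _
      rcases lt_or_ge u (y : ℝ) with huy | huy
      · rw [Ph_zero_small hy2 τ hu.le (by linarith), norm_one, one_mul]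
        have h1 : u ^ (-(2 + η)) ≤ u ^ (-(2 : ℝ)) :=
          Real.rpow_le_rpow_of_exponent_le hu.le (by linarith)
        have h2 : 0 ≤ C / L * (1 / |τ|) * u ^ (-1 - η) + C / L * u ^ (-1 - 1 / L) := by positivity
        exact le_add_of_le_of_nonneg h1 h2
      · have h1 := hPh 0 u (by norm_num) huy
        rw [pow_zero, one_mul] at h1
        have h2 : u * u ^ (-(2 + η)) = u ^ (-1 - η) := by
          rw [show (-1 - η : ℝ) = 1 + -(2 + η) by ring, Real.rpow_add hu0, Real.rpow_one]
        have h3 : u ^ (-1 - η) * u ^ (-(1 / L)) ≤ u ^ (-1 - 1 / L) := by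
          rw [← Real.rpow_add hu0]
          exact Real.rpow_le_rpow_of_exponent_le hu.le (by linarith)
        calc ‖Ph 0 y u τ‖ * u ^ (-(2 + η)) ≤
            (C * (u / L * (1 / |τ| + u ^ (-(1 / L))))) * u ^ (-(2 + η)) :=
              mul_le_mul_of_nonneg_right h1 (Real.rpow_nonneg hu0.le _)
          _ = C / L * (1 / |τ|) * (u * u ^ (-(2 + η))) +
              C / L * ((u * u ^ (-(2 + η))) * u ^ (-(1 / L))) := by ring
          _ ≤ C / L * (1 / |τ|) * u ^ (-1 - η) + C / L * u ^ (-1 - 1 / L) := by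
              rw [h2]
              have := mul_le_mul_of_nonneg_left h3 (by positivity : 0 ≤ C / L)
              linarith
          _ ≤ g u := le_add_of_nonneg_left p3.le
  · -- `k = 1`
    have e1 : Gv (fun n => ro y n * (Real.log n : ℂ)) η τ =
        Gv (fun n => rt y τ n * (Real.log n : ℂ)) η 0 := by
      rw [Gv_rt_log, add_zero]
    rw [e1]
    obtain ⟨i2, j2⟩ := intIoi (a := η / 2) (by positivity)
    obtain ⟨i3, j3⟩ := intIoi (a := 1 / (2 * L)) (by positivity)
    set g : ℝ → ℝ := fun u =>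
      C / L * (1 / |τ|) * (2 / η) * u ^ (-1 - η / 2) + 2 * C * u ^ (-1 - 1 / (2 * L)) with hg
    have hgi : IntegrableOn g (Set.Ioi 1) := (i2.const_mul _).add (i3.const_mul _)
    have hgI : ∫ u in Set.Ioi (1 : ℝ), g u =
        C / L * (1 / |τ|) * (2 / η) * (1 / (η / 2)) + 2 * C * (1 / (1 / (2 * L))) := by
      rw [hg]
      rw [integral_add (i2.const_mul _) (i3.const_mul _), integral_const_mul, integral_const_mul,
        j2, j3]
    have hsum1 : LSeriesSummable (fun n => rt y τ n * (Real.log n : ℂ)) ((1 + η : ℝ) : ℂ) := by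
      have h1 : LSeries.abscissaOfAbsConv (rt y τ) < (((1 + η : ℝ) : ℂ).re : ℝ) := by
        refine lt_of_le_of_lt (LSeries.abscissaOfAbsConv_le_of_le_const ⟨1, fun n _ => hrt n⟩) ?_
        rw [Complex.ofReal_re]
        exact_mod_cast (by linarith : (1 : ℝ) < 1 + η)
      have h2 := LSeriesSummable_logMul_of_lt_re h1
      have h3 : LSeries.logMul (rt y τ) = fun n => rt y τ n * (Real.log n : ℂ) := by
        funext n
        unfold LSeries.logMul
        rw [← Complex.natCast_log, mul_comm]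
      rw [← h3]
      exact h2
    have hm := norm_Gv_le (f := fun n => rt y τ n * (Real.log n : ℂ)) (r := 1 + η / 2) hη hη1
      (by linarith) (by linarith) hsum1 ?_ hgi ?_
    · refine hm.trans ?_
      rw [hgI]
      have h1 : C / L * (1 / |τ|) * (2 / η) * (1 / (η / 2)) = 4 * C * L / (|τ| * (η * L) ^ 2) := by
        field_simp
        ring
      have h2 : 4 * C * L / (|τ| * (η * L) ^ 2) ≤ 4 * C * L := div_le_self (by positivity) hτη
      have h3 : 2 * C * (1 / (1 / (2 * L))) = 4 * C * L := by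
        field_simp
        ring
      rw [h1, h3]
      nlinarith
    · intro n hn
      have hn1 : (1 : ℝ) ≤ n := by exact_mod_cast hn
      have hn0 : (0 : ℝ) < n := by linarith
      have hln : Real.log n ≤ (n : ℝ) ^ (η / 2) / (η / 2) :=
        Real.log_le_rpow_div hn0.le (by positivity)
      have h1 : ‖∑ k ∈ Icc 1 n, rt y τ k * (Real.log k : ℂ)‖ ≤ n * Real.log n := by
        refine (norm_sum_le _ _).trans ?_
        have h2 : ∀ k ∈ Icc 1 n, ‖rt y τ k * (Real.log k : ℂ)‖ ≤ Real.log n := by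
          intro k hk
          obtain ⟨hk1, hk2⟩ := Finset.mem_Icc.1 hk
          have hk1' : (1 : ℝ) ≤ k := by exact_mod_cast hk1
          have hk2' : (k : ℝ) ≤ n := by exact_mod_cast hk2
          rw [norm_mul, Complex.norm_real, Real.norm_of_nonneg (Real.log_nonneg hk1')]
          calc ‖rt y τ k‖ * Real.log k ≤ 1 * Real.log k :=
                mul_le_mul_of_nonneg_right (hrt k) (Real.log_nonneg hk1')
            _ ≤ Real.log n := by
                rw [one_mul]
                exact Real.log_le_log (by linarith) hk2'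
        refine (Finset.sum_le_sum h2).trans ?_
        simp
      have h3 : (n : ℝ) ^ (1 + η / 2) = n * (n : ℝ) ^ (η / 2) := by
        rw [Real.rpow_add hn0, Real.rpow_one]
      rw [h3]
      have h4 : (n : ℝ) * Real.log n ≤ n * ((n : ℝ) ^ (η / 2) / (η / 2)) :=
        mul_le_mul_of_nonneg_left hln hn0.le
      have h5 : (n : ℝ) * ((n : ℝ) ^ (η / 2) / (η / 2)) = η⁻¹ * 2 * (n * (n : ℝ) ^ (η / 2)) := by
        field_simp
      have h6 : 0 < (n : ℝ) * (n : ℝ) ^ (η / 2) := by positivity
      have h7 : 0 < η⁻¹ := by positivity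
      rw [h5] at h4
      have h8 : 0 < η⁻¹ * ((n : ℝ) * (n : ℝ) ^ (η / 2)) := by positivity
      nlinarith
    · intro u hu
      have hu0 : 0 < u := by linarith
      have hlu : 0 ≤ Real.log u := Real.log_nonneg hu.le
      have e2 : Sg (fun n => rt y τ n * (Real.log n : ℂ)) u = Ph 1 y u τ := by
        unfold Ph
        congr 1
        funext n
        rw [pow_one, mul_comm]
      rw [e2]
      have p1 : (0 : ℝ) < u ^ (-1 - η / 2) := Real.rpow_pos_of_pos hu0 _
      have p2 : (0 : ℝ) < u ^ (-1 - 1 / (2 * L)) := Real.rpow_pos_of_pos hu0 _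
      rcases lt_or_ge u (y : ℝ) with huy | huy
      · rw [Ph_small le_rfl hy2 τ (by linarith), norm_zero, zero_mul]
        rw [hg]
        simp only
        positivity
      · have h1 := hPh 1 u (by norm_num) huy
        rw [pow_one] at h1
        have h2 : u * u ^ (-(2 + η)) = u ^ (-1 - η) := by
          rw [show (-1 - η : ℝ) = 1 + -(2 + η) by ring, Real.rpow_add hu0, Real.rpow_one]
        have l1 : Real.log u ≤ u ^ (η / 2) / (η / 2) := Real.log_le_rpow_div hu0.le (by positivity)
        have l2 : Real.log u ≤ u ^ (1 / (2 * L)) / (1 / (2 * L)) :=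
          Real.log_le_rpow_div hu0.le (by positivity)
        have h3 : Real.log u * u ^ (-1 - η) ≤ 2 / η * u ^ (-1 - η / 2) := by
          have h4 : u ^ (η / 2) * u ^ (-1 - η) = u ^ (-1 - η / 2) := by
            rw [← Real.rpow_add hu0]
            congr 1
            ring
          calc Real.log u * u ^ (-1 - η) ≤ (u ^ (η / 2) / (η / 2)) * u ^ (-1 - η) :=
                mul_le_mul_of_nonneg_right l1 (Real.rpow_nonneg hu0.le _)
            _ = 2 / η * (u ^ (η / 2) * u ^ (-1 - η)) := by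
                field_simp
            _ = _ := by rw [h4]
        have h5 : Real.log u * (u ^ (-1 - η) * u ^ (-(1 / L))) ≤
            2 * L * u ^ (-1 - 1 / (2 * L)) := by
          have h6 : u ^ (-1 - η) * u ^ (-(1 / L)) ≤ u ^ (-1 - 1 / L) := by
            rw [← Real.rpow_add hu0]
            exact Real.rpow_le_rpow_of_exponent_le hu.le (by linarith)
          have h7 : u ^ (1 / (2 * L)) * u ^ (-1 - 1 / L) = u ^ (-1 - 1 / (2 * L)) := by
            rw [← Real.rpow_add hu0]
            congr 1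
            field_simp
            ring
          calc Real.log u * (u ^ (-1 - η) * u ^ (-(1 / L))) ≤ Real.log u * u ^ (-1 - 1 / L) :=
                mul_le_mul_of_nonneg_left h6 hlu
            _ ≤ (u ^ (1 / (2 * L)) / (1 / (2 * L))) * u ^ (-1 - 1 / L) :=
                mul_le_mul_of_nonneg_right l2 (Real.rpow_nonneg hu0.le _)
            _ = 2 * L * (u ^ (1 / (2 * L)) * u ^ (-1 - 1 / L)) := by
                field_simp
            _ = _ := by rw [h7]
        calc ‖Ph 1 y u τ‖ * u ^ (-(2 + η)) ≤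
            (C * (Real.log u * (u / L) * (1 / |τ| + u ^ (-(1 / L))))) * u ^ (-(2 + η)) :=
              mul_le_mul_of_nonneg_right h1 (Real.rpow_nonneg hu0.le _)
          _ = C / L * (1 / |τ|) * (Real.log u * (u * u ^ (-(2 + η)))) +
              C / L * (Real.log u * ((u * u ^ (-(2 + η))) * u ^ (-(1 / L)))) := by ring
          _ ≤ C / L * (1 / |τ|) * (2 / η * u ^ (-1 - η / 2)) +
              C / L * (2 * L * u ^ (-1 - 1 / (2 * L))) := by
              rw [h2]
              exact add_le_add (mul_le_mul_of_nonneg_left h3 (by positivity))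
                (mul_le_mul_of_nonneg_left h5 (by positivity))
          _ = g u := by
              rw [hg]
              simp only
              field_simp

end Pool.Agent.Helper12.AA
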