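import Pool.Agent.Helper99.AA.Basic

set_option autoImplicit false

/-!
Project AA, row PS: partial summation.
-/

open Finset MeasureTheory
open scoped BigOperators Nat

namespace Pool.Agent.Helper12.AA

open Pool.Agent.Helper40.MR
open Pool.Agent.Helper99.AA

theorem sum_Icc_zero {c : ℕ → ℂ} (hc : c 0 = 0) (m : ℕ) :
    ∑ n ∈ Icc 0 m, c n = ∑ n ∈ Icc 1 m, c n := by
  refine (Finset.sum_subset ?_ ?_).symm
  · intro n hn
    exact Finset.mem_Icc.2 ⟨Nat.zero_le _, (Finset.mem_Icc.1 hn).2⟩
  · intro n hn hn'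
    have h0 : n = 0 := by
      by_contra h
      exact hn' (Finset.mem_Icc.2 ⟨Nat.one_le_iff_ne_zero.2 h, (Finset.mem_Icc.1 hn).2⟩)
    rw [h0, hc]

/-- derivative of `(log u)^k` -/
theorem hasDerivAt_log_pow (k : ℕ) {u : ℝ} (hu : 0 < u) :
    HasDerivAt (fun u : ℝ => ((Real.log u : ℝ) : ℂ) ^ k)
      ((k : ℂ) * ((Real.log u : ℝ) : ℂ) ^ (k - 1) * ((u⁻¹ : ℝ) : ℂ)) u :=
  ((Real.hasDerivAt_log hu.ne').ofReal_comp).pow k

theorem Ph_abel (k : ℕ) {y : ℕ} (hy : 2 ≤ y) (t N : ℝ) :
    Ph k y N t = ((Real.log N : ℝ) : ℂ) ^ k * Ph 0 y N t -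
      ∫ u in Set.Ioc 1 N, (k : ℂ) * ((Real.log u : ℝ) : ℂ) ^ (k - 1) * ((u⁻¹ : ℝ) : ℂ) *
        Ph 0 y u t := by
  have hc : rt y t 0 = 0 := by
    unfold rt
    rw [ro_zero hy, zero_mul]
  have hd : ∀ u ∈ Set.Icc (1 : ℝ) N, DifferentiableAt ℝ (fun u : ℝ => ((Real.log u : ℝ) : ℂ) ^ k) u :=
    fun u hu => (hasDerivAt_log_pow k (by linarith [hu.1])).differentiableAt
  have hint : IntegrableOn (deriv (fun u : ℝ => ((Real.log u : ℝ) : ℂ) ^ k)) (Set.Icc 1 N) := by
    have h1 : ContinuousOn (fun u : ℝ => (k : ℂ) * ((Real.log u : ℝ) : ℂ) ^ (k - 1) *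
        ((u⁻¹ : ℝ) : ℂ)) (Set.Icc 1 N) := by
      have h2 : ContinuousOn (fun u : ℝ => Real.log u) (Set.Icc 1 N) :=
        Real.continuousOn_log.mono fun u hu => by
          have := hu.1
          simp only [Set.mem_compl_iff, Set.mem_singleton_iff]
          intro h
          rw [h] at this
          linarith
      have h3 : ContinuousOn (fun u : ℝ => u⁻¹) (Set.Icc 1 N) :=
        continuousOn_inv₀.mono fun u hu => by
          have := hu.1
          simp only [Set.mem_compl_iff, Set.mem_singleton_iff]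
          intro h
          rw [h] at this
          linarith
      exact (continuousOn_const.mul ((Complex.continuous_ofReal.comp_continuousOn h2).pow _)).mul
        (Complex.continuous_ofReal.comp_continuousOn h3)
    refine (h1.integrableOn_compact isCompact_Icc).congr_fun ?_ measurableSet_Icc
    intro u hu
    exact (hasDerivAt_log_pow k (by linarith [hu.1])).deriv.symm
  have h := sum_mul_eq_sub_integral_mul₀ (rt y t) hc N hd hint
  have e1 : ∑ n ∈ Icc 0 ⌊N⌋₊, ((Real.log n : ℝ) : ℂ) ^ k * rt y t n = Ph k y N t := by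
    rw [sum_Icc_zero (c := fun n : ℕ => ((Real.log n : ℝ) : ℂ) ^ k * rt y t n)
      (by simp only [hc, mul_zero])]
    rfl
  have e2 : ∀ u : ℝ, ∑ n ∈ Icc 0 ⌊u⌋₊, rt y t n = Ph 0 y u t := by
    intro u
    rw [sum_Icc_zero hc]
    unfold Ph Sg
    refine Finset.sum_congr rfl fun n _ => ?_
    simp only [pow_zero, one_mul]
  rw [e1, e2] at h
  rw [h]
  congr 1
  refine setIntegral_congr_fun measurableSet_Ioc ?_
  intro u hu
  show deriv (fun u : ℝ => ((Real.log u : ℝ) : ℂ) ^ k) u * ∑ n ∈ Icc 0 ⌊u⌋₊, rt y t n = _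
  rw [e2, (hasDerivAt_log_pow k (by linarith [hu.1])).deriv]

theorem st_PS (hFL : ST_FL) (hVM : ST_VM) : ST_PS := by
  obtain ⟨C1, hC1, hF⟩ := hFL
  obtain ⟨C2, hC2, hV⟩ := hVM
  set C0 : ℝ := max C1 C2 with hC0def
  have hC0 : 0 < C0 := hC1.trans_le (le_max_left _ _)
  refine ⟨5 * C0 + 12, by positivity, ?_⟩
  intro A hA
  obtain ⟨y₀, hy₀, hF'⟩ := hF A hA
  refine ⟨max y₀ 8, le_max_of_le_right (by norm_num), ?_⟩
  intro k y t N hk hyy ht htA hyN
  have hyy0 : y₀ ≤ y := (le_max_left _ _).trans hyy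
  have hy8 : 8 ≤ y := (le_max_right _ _).trans hyy
  have hy2 : 2 ≤ y := by omega
  have hyr : (8 : ℝ) ≤ y := by exact_mod_cast hy8
  have hL2 : 2 ≤ Real.log y := by
    have h1 : Real.log 8 ≤ Real.log y := Real.log_le_log (by norm_num) hyr
    have h2 := Real.log_two_gt_d9
    have h3 : Real.log 8 = 3 * Real.log 2 := by
      rw [show (8 : ℝ) = 2 ^ 3 by norm_num, Real.log_pow]
      norm_num
    linarith
  set L : ℝ := Real.log y with hL
  have hL0 : 0 < L := by linarith
  have ht0 : 0 < |t| := by linarith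
  have htne : t ≠ 0 := abs_pos.1 ht0
  -- the case `k = 0`, for all `u ≥ y`
  have h0 : ∀ u : ℝ, (y : ℝ) ≤ u → ‖Ph 0 y u t‖ ≤
      C0 * (u / L) * (1 / |t| + Real.exp (-(Real.log u / L))) := by
    intro u hu
    have hu0 : 0 < u := by linarith
    have h1 := hF' y t u hyy0 htA hu
    have h2 : Ph 0 y u t = Dd y u t + (Vy y : ℂ) * Mt u t := by
      unfold Dd
      ring
    obtain ⟨hv0, hv1⟩ := hV y hy2
    have h3 : ‖(Vy y : ℂ) * Mt u t‖ ≤ C2 / L * (u / |t|) := by
      rw [norm_mul, Complex.norm_real, Real.norm_of_nonneg hv0]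
      exact mul_le_mul hv1 (norm_Mt_le' hu0.le htne) (norm_nonneg _) (by positivity)
    have h4 : C1 * (u / L * Real.exp (-(Real.log u / L))) ≤
        C0 * (u / L * Real.exp (-(Real.log u / L))) :=
      mul_le_mul_of_nonneg_right (le_max_left _ _) (by positivity)
    have h5 : C2 / L * (u / |t|) ≤ C0 * (u / L * (1 / |t|)) := by
      have : C2 / L * (u / |t|) = C2 * (u / L * (1 / |t|)) := by ring
      rw [this]
      exact mul_le_mul_of_nonneg_right (le_max_right _ _) (by positivity)
    rw [h2]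
    calc ‖Dd y u t + (Vy y : ℂ) * Mt u t‖ ≤ ‖Dd y u t‖ + ‖(Vy y : ℂ) * Mt u t‖ := norm_add_le _ _
      _ ≤ C0 * (u / L * Real.exp (-(Real.log u / L))) + C0 * (u / L * (1 / |t|)) := by
        refine add_le_add (h1.trans h4) (h3.trans h5)
      _ = _ := by ring
  have hN0 : 0 < N := by linarith
  have hN1 : 1 ≤ N := by linarith
  have hLN : L ≤ Real.log N := Real.log_le_log (by linarith) hyN
  have hLN1 : 1 ≤ Real.log N := by linarith
  set E : ℝ := 1 / |t| + Real.exp (-(Real.log N / L)) with hE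
  have hE0 : 0 < E := by positivity
  rcases Nat.eq_zero_or_pos k with hk0 | hk0
  · rw [hk0]
    refine (h0 N hyN).trans ?_
    rw [pow_zero, one_mul, mul_assoc]
    refine mul_le_mul_of_nonneg_right (by linarith) ?_
    positivity
  -- `k ≥ 1`
  have hk2 : (k : ℝ) ≤ 2 := by exact_mod_cast hk
  have hk1 : (1 : ℝ) ≤ k := by exact_mod_cast hk0
  -- bound for `Ph 0` in `(1, N]`
  set B1 : ℝ := k * L ^ (k - 1) * Real.exp 1 with hB1
  set B2 : ℝ := k * Real.log N ^ (k - 1) * (C0 / L) with hB2
  have hB1' : 0 ≤ B1 := by positivity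
  have hB2' : 0 ≤ B2 := by positivity
  set G : ℝ → ℝ := fun u => B1 * u ^ (-1 - 1 / L) + B2 * (1 / |t| + u ^ (-(1 / L))) with hG
  have hpow : ∀ u : ℝ, 0 < u → Real.exp (-(Real.log u / L)) = u ^ (-(1 / L)) := by
    intro u hu
    rw [Real.rpow_def_of_pos hu]
    congr 1
    ring
  have hbound : ∀ u ∈ Set.Ioc (1 : ℝ) N,
      ‖(k : ℂ) * ((Real.log u : ℝ) : ℂ) ^ (k - 1) * ((u⁻¹ : ℝ) : ℂ) * Ph 0 y u t‖ ≤ G u := by
    intro u hu
    have hu1 : 1 < u := hu.1
    have hu0 : 0 < u := by linarith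
    have hlu : 0 ≤ Real.log u := Real.log_nonneg hu1.le
    have hnorm : ‖(k : ℂ) * ((Real.log u : ℝ) : ℂ) ^ (k - 1) * ((u⁻¹ : ℝ) : ℂ) * Ph 0 y u t‖ =
        k * Real.log u ^ (k - 1) * u⁻¹ * ‖Ph 0 y u t‖ := by
      rw [norm_mul, norm_mul, norm_mul, norm_pow, Complex.norm_real, Complex.norm_real,
        Real.norm_of_nonneg hlu, Real.norm_of_nonneg (by positivity), Complex.norm_natCast]
    rw [hnorm]
    rcases lt_or_ge u (y : ℝ) with huy | huy
    · have h1 : Ph 0 y u t = 1 := Ph_zero_small hy2 t hu1.le (by linarith)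
      rw [h1, norm_one, mul_one]
      have h2 : Real.log u ≤ L := Real.log_le_log hu0 huy.le
      have h3 : Real.log u ^ (k - 1) ≤ L ^ (k - 1) := pow_le_pow_left₀ hlu h2 _
      have h4 : 1 ≤ Real.exp 1 * u ^ (-(1 / L)) := by
        rw [← hpow u hu0, ← Real.exp_add]
        refine Real.one_le_exp ?_
        have : Real.log u / L ≤ 1 := by
          rw [div_le_one hL0]
          exact h2
        linarith
      have h5 : u ^ (-1 - 1 / L) = u⁻¹ * u ^ (-(1 / L)) := by
        rw [show (-1 - 1 / L : ℝ) = -1 + -(1 / L) by ring, Real.rpow_add hu0, Real.rpow_neg_one]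
      have h6 : 0 ≤ B2 * (1 / |t| + u ^ (-(1 / L))) := by positivity
      calc (k : ℝ) * Real.log u ^ (k - 1) * u⁻¹ ≤ k * L ^ (k - 1) * u⁻¹ * 1 := by
            rw [mul_one]
            refine mul_le_mul_of_nonneg_right ?_ (by positivity)
            exact mul_le_mul_of_nonneg_left h3 (by positivity)
        _ ≤ k * L ^ (k - 1) * u⁻¹ * (Real.exp 1 * u ^ (-(1 / L))) :=
            mul_le_mul_of_nonneg_left h4 (by positivity)
        _ = B1 * u ^ (-1 - 1 / L) := by
            rw [h5, hB1]
            ring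
        _ ≤ G u := by
            rw [hG]
            simp only
            linarith
    · have h1 := h0 u huy
      have h2 : Real.log u ≤ Real.log N := Real.log_le_log hu0 hu.2
      have h3 : Real.log u ^ (k - 1) ≤ Real.log N ^ (k - 1) := pow_le_pow_left₀ hlu h2 _
      have h4 : 0 ≤ B1 * u ^ (-1 - 1 / L) := by positivity
      rw [hpow u hu0] at h1
      calc (k : ℝ) * Real.log u ^ (k - 1) * u⁻¹ * ‖Ph 0 y u t‖ ≤
            (k * Real.log N ^ (k - 1) * u⁻¹) *
              (C0 * (u / L) * (1 / |t| + u ^ (-(1 / L)))) := by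
            refine mul_le_mul ?_ h1 (norm_nonneg _) (by positivity)
            refine mul_le_mul_of_nonneg_right ?_ (by positivity)
            exact mul_le_mul_of_nonneg_left h3 (by positivity)
        _ = B2 * (1 / |t| + u ^ (-(1 / L))) := by
            rw [hB2]
            field_simp
        _ ≤ G u := by
            rw [hG]
            simp only
            linarith
  have h1L : 0 < 1 / L := by positivity
  have h1L2 : 1 / L ≤ 1 / 2 := one_div_le_one_div_of_le (by norm_num) hL2
  -- integrals of the powers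
  have hint1 : IntervalIntegrable (fun u : ℝ => u ^ (-1 - 1 / L)) volume 1 N := by
    refine intervalIntegral.intervalIntegrable_rpow (Or.inr ?_)
    rw [Set.uIcc_of_le hN1]
    intro h
    linarith [h.1]
  have hint2 : IntervalIntegrable (fun u : ℝ => u ^ (-(1 / L))) volume 1 N := by
    refine intervalIntegral.intervalIntegrable_rpow (Or.inr ?_)
    rw [Set.uIcc_of_le hN1]
    intro h
    linarith [h.1]
  have hGint : IntervalIntegrable G volume 1 N :=
    (hint1.const_mul B1).add (((intervalIntegrable_const).add hint2).const_mul B2)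
  have hI1 : ∫ u in (1 : ℝ)..N, u ^ (-1 - 1 / L) ≤ L := by
    rw [integral_rpow (Or.inr ⟨by linarith, by
      rw [Set.uIcc_of_le hN1]
      intro h
      linarith [h.1]⟩)]
    rw [show (-1 - 1 / L + 1 : ℝ) = -(1 / L) by ring, Real.one_rpow]
    have h1 : 0 < N ^ (-(1 / L)) := Real.rpow_pos_of_pos hN0 _
    have h2 : (N ^ (-(1 / L)) - 1) / (-(1 / L)) = L * (1 - N ^ (-(1 / L))) := by
      field_simp
      ring
    rw [h2]
    nlinarith
  have hI2 : ∫ u in (1 : ℝ)..N, u ^ (-(1 / L)) ≤ 2 * (N * N ^ (-(1 / L))) := by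
    rw [integral_rpow (Or.inl (by linarith)), Real.one_rpow]
    have h1 : N ^ (-(1 / L) + 1) = N * N ^ (-(1 / L)) := by
      rw [Real.rpow_add hN0, Real.rpow_one, mul_comm]
    rw [h1, div_le_iff₀ (by linarith)]
    have h2 : 0 < N * N ^ (-(1 / L)) := mul_pos hN0 (Real.rpow_pos_of_pos hN0 _)
    nlinarith
  have hI3 : ∫ u in (1 : ℝ)..N, G u ≤ B1 * L + B2 * (N / |t| + 2 * (N * N ^ (-(1 / L)))) := by
    have h1 : ∫ u in (1 : ℝ)..N, G u =
        B1 * (∫ u in (1 : ℝ)..N, u ^ (-1 - 1 / L)) +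
          B2 * ((N - 1) * (1 / |t|) + ∫ u in (1 : ℝ)..N, u ^ (-(1 / L))) := by
      rw [hG]
      rw [intervalIntegral.integral_add (hint1.const_mul B1)
        (((intervalIntegrable_const).add hint2).const_mul B2)]
      rw [intervalIntegral.integral_const_mul, intervalIntegral.integral_const_mul,
        intervalIntegral.integral_add intervalIntegrable_const hint2,
        intervalIntegral.integral_const, smul_eq_mul]
    rw [h1]
    refine add_le_add (mul_le_mul_of_nonneg_left hI1 hB1') ?_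
    refine mul_le_mul_of_nonneg_left ?_ hB2'
    refine add_le_add ?_ hI2
    rw [div_eq_mul_one_div N |t|]
    have h2 : (0 : ℝ) ≤ 1 / |t| := by positivity
    nlinarith
  have hInt : ‖∫ u in Set.Ioc 1 N, (k : ℂ) * ((Real.log u : ℝ) : ℂ) ^ (k - 1) *
      ((u⁻¹ : ℝ) : ℂ) * Ph 0 y u t‖ ≤ B1 * L + B2 * (N / |t| + 2 * (N * N ^ (-(1 / L)))) := by
    refine le_trans ?_ hI3
    rw [intervalIntegral.integral_of_le hN1]
    refine norm_integral_le_of_norm_le ?_ ?_
    · exact (intervalIntegrable_iff_integrableOn_Ioc_of_le hN1).1 hGint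
    · exact (ae_restrict_iff' measurableSet_Ioc).2 (Filter.Eventually.of_forall hbound)
  rw [← hpow N hN0] at hInt
  -- the main comparison
  have hkk : Real.log N ^ k = Real.log N ^ (k - 1) * Real.log N := by
    rw [← pow_succ]
    congr 1
    omega
  have hLk : L ^ k = L ^ (k - 1) * L := by
    rw [← pow_succ]
    congr 1
    omega
  have hsmall : L * L ≤ 2 * Real.log N * (N * Real.exp (-(Real.log N / L))) := by
    have h1 : Real.log N / L ≤ Real.log N / 2 :=
      div_le_div_of_nonneg_left (by linarith) (by norm_num) hL2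
    have h2 : N * Real.exp (-(Real.log N / L)) ≥ Real.exp (Real.log N / 2) := by
      have h3 : N = Real.exp (Real.log N) := (Real.exp_log hN0).symm
      calc Real.exp (Real.log N / 2) ≤ Real.exp (Real.log N + -(Real.log N / L)) := by
            refine Real.exp_le_exp.2 ?_
            linarith
        _ = Real.exp (Real.log N) * Real.exp (-(Real.log N / L)) := Real.exp_add _ _
        _ = N * Real.exp (-(Real.log N / L)) := by rw [← h3]
    have h4 : Real.log N / 2 ≤ Real.exp (Real.log N / 2) := by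
      have := Real.add_one_le_exp (Real.log N / 2)
      linarith
    have h5 : Real.log N / 2 ≤ N * Real.exp (-(Real.log N / L)) := h4.trans h2
    have h6 : L * L ≤ Real.log N * Real.log N := mul_le_mul hLN hLN hL0.le (by linarith)
    have h7 : Real.log N * Real.log N ≤ Real.log N * (2 * (N * Real.exp (-(Real.log N / L)))) := by
      refine mul_le_mul_of_nonneg_left ?_ (by linarith)
      linarith
    calc L * L ≤ Real.log N * Real.log N := h6
      _ ≤ Real.log N * (2 * (N * Real.exp (-(Real.log N / L)))) := h7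
      _ = _ := by ring
  have hB1L : B1 * L ≤ 12 * (Real.log N ^ k * (N / L) * E) := by
    have hLk1 : L ^ (k - 1) ≤ Real.log N ^ (k - 1) := pow_le_pow_left₀ hL0.le hLN _
    have he : Real.exp 1 ≤ 3 := by
      have := Real.exp_one_lt_d9
      linarith
    have h1 : L ≤ 2 * Real.log N * (N / L * Real.exp (-(Real.log N / L))) := by
      have h2 : 2 * Real.log N * (N / L * Real.exp (-(Real.log N / L))) =
          2 * Real.log N * (N * Real.exp (-(Real.log N / L))) / L := by ring
      rw [h2, le_div_iff₀ hL0]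
      exact hsmall
    have h3 : Real.exp (-(Real.log N / L)) ≤ E := by
      rw [hE]
      have : 0 ≤ 1 / |t| := by positivity
      linarith
    calc B1 * L = k * Real.exp 1 * (L ^ (k - 1) * L) := by
          rw [hB1]
          ring
      _ ≤ 2 * 3 * (Real.log N ^ (k - 1) * (2 * Real.log N * (N / L * E))) := by
          refine mul_le_mul ?_ ?_ (by positivity) (by norm_num)
          · exact mul_le_mul hk2 he (by positivity) (by norm_num)
          · refine mul_le_mul hLk1 ?_ hL0.le (by positivity)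
            refine h1.trans ?_
            refine mul_le_mul_of_nonneg_left ?_ (by positivity)
            exact mul_le_mul_of_nonneg_left h3 (by positivity)
      _ = 12 * (Real.log N ^ k * (N / L) * E) := by
          rw [hkk]
          ring
  have hB2N : B2 * (N / |t| + 2 * (N * Real.exp (-(Real.log N / L)))) ≤
      4 * C0 * (Real.log N ^ k * (N / L) * E) := by
    have h1 : N / |t| + 2 * (N * Real.exp (-(Real.log N / L))) ≤ 2 * (N * E) := by
      have h2 : 0 ≤ N * (1 / |t|) := by positivity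
      have h3 : N / |t| = N * (1 / |t|) := by ring
      rw [h3, hE]
      nlinarith
    have h4 : Real.log N ^ (k - 1) ≤ Real.log N ^ k := by
      rw [hkk]
      exact le_mul_of_one_le_right (by positivity) hLN1
    calc B2 * (N / |t| + 2 * (N * Real.exp (-(Real.log N / L)))) ≤ B2 * (2 * (N * E)) :=
          mul_le_mul_of_nonneg_left h1 hB2'
      _ = (k * Real.log N ^ (k - 1)) * (2 * C0 * (N / L * E)) := by
          rw [hB2]
          ring
      _ ≤ (2 * Real.log N ^ k) * (2 * C0 * (N / L * E)) := by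
          refine mul_le_mul_of_nonneg_right ?_ (by positivity)
          exact mul_le_mul hk2 h4 (by positivity) (by norm_num)
      _ = _ := by ring
  have hmain : ‖((Real.log N : ℝ) : ℂ) ^ k * Ph 0 y N t‖ ≤
      C0 * (Real.log N ^ k * (N / L) * E) := by
    rw [norm_mul, norm_pow, Complex.norm_real, Real.norm_of_nonneg (by linarith)]
    calc Real.log N ^ k * ‖Ph 0 y N t‖ ≤ Real.log N ^ k * (C0 * (N / L) * E) :=
          mul_le_mul_of_nonneg_left (h0 N hyN) (by positivity)
      _ = _ := by ring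
  rw [Ph_abel k hy2 t N]
  calc ‖((Real.log N : ℝ) : ℂ) ^ k * Ph 0 y N t -
      ∫ u in Set.Ioc 1 N, (k : ℂ) * ((Real.log u : ℝ) : ℂ) ^ (k - 1) * ((u⁻¹ : ℝ) : ℂ) *
        Ph 0 y u t‖ ≤ _ := norm_sub_le _ _
    _ ≤ C0 * (Real.log N ^ k * (N / L) * E) +
        (12 * (Real.log N ^ k * (N / L) * E) + 4 * C0 * (Real.log N ^ k * (N / L) * E)) := by
        refine add_le_add hmain (hInt.trans (add_le_add hB1L hB2N))
    _ = (5 * C0 + 12) * (Real.log N ^ k * (N / L) * E) := by ring

end Pool.Agent.Helper12.AA
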